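import Pool.Agent.L0h99.MN.Stm2

set_option autoImplicit false

/-!
# Module CLA of project MD (helper99)
-/

namespace Pool.Agent.L0h14.MD

open Finset Pool.Agent.L0h99.MN Pool.Agent.L0h99.MD

theorem tC_of : ∀ i j : Fin 6, tb [(0, 1), (1, 2), (2, 3), (3, 4), (4, 5), (5, 0)] i j = true →
    tC i.castSucc j.castSucc = true := by decide

theorem tD_of : ∀ i j : Fin 6, tb [(0, 1), (1, 2), (2, 0), (3, 4), (4, 5), (5, 3)] i j = true →
    tD i.castSucc j.castSucc = true := by decide

theorem tE_of : ∀ i j : Fin 5, tb [(0, 1), (1, 2), (2, 3), (3, 4), (4, 0)] i j = true →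
    tE i.castSucc.castSucc j.castSucc.castSucc = true := by decide

theorem tE_pq : tE (Fin.last 5).castSucc (Fin.last 6) = true ∧ tE (Fin.last 6) (Fin.last 5).castSucc = true := by decide

variable {V : Type} [Fintype V] [DecidableEq V]

/-- From a table for `H` to a table for `G`. -/
theorem tp_of (G H : SimpleGraph V) (S : Finset V) (t : Fin 7 → Fin 7 → Bool)
    (hH : ∀ x ∈ S, ∀ y ∈ S, x ≠ y → ¬ G.Adj x y → H.Adj x y) (x : Fin 7 → V) (hx : Function.Injective x)
    (hS : S = univ.image x) (ht : ∀ i j, H.Adj (x i) (x j) → t i j = true) : Tp G S t := by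
  refine ⟨x, hx, hS, fun i j hij h => ?_⟩
  by_contra hG
  have hm : ∀ i, x i ∈ S := fun i => hS ▸ mem_image_of_mem _ (mem_univ _)
  have h1 := ht i j (hH _ (hm i) _ (hm j) (fun e => hij (hx e)) hG)
  rw [h] at h1
  exact absurd h1 (by decide)

theorem snoc_inj {n : ℕ} (x : Fin n → V) (u : V) (hx : Function.Injective x) (hu : u ∉ univ.image x) :
    Function.Injective (Fin.snoc x u : Fin (n + 1) → V) := by
  have hne : ∀ i, x i ≠ u := fun i h => hu (h ▸ mem_image_of_mem _ (mem_univ _))
  intro i j
  refine Fin.lastCases (fun h => ?_) (fun i' => ?_) i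
  · revert h
    refine Fin.lastCases (fun _ => rfl) (fun j' h => ?_) j
    rw [Fin.snoc_last, Fin.snoc_castSucc] at h
    exact absurd h.symm (hne j')
  · refine Fin.lastCases (fun h => ?_) (fun j' h => ?_) j
    · rw [Fin.snoc_last, Fin.snoc_castSucc] at h
      exact absurd h (hne i')
    · rw [Fin.snoc_castSucc, Fin.snoc_castSucc] at h
      rw [hx h]

theorem snoc_image {n : ℕ} (x : Fin n → V) (u : V) :
    univ.image (Fin.snoc x u : Fin (n + 1) → V) = insert u (univ.image x) := by
  ext z
  rw [mem_insert]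
  constructor
  · intro hz
    obtain ⟨i, -, rfl⟩ := mem_image.mp hz
    refine Fin.lastCases ?_ (fun i' => ?_) i
    · rw [Fin.snoc_last]
      exact Or.inl rfl
    · rw [Fin.snoc_castSucc]
      exact Or.inr (mem_image_of_mem _ (mem_univ _))
  · rintro (rfl | hz)
    · exact mem_image.mpr ⟨Fin.last n, mem_univ _, Fin.snoc_last _ _⟩
    · obtain ⟨i, -, rfl⟩ := mem_image.mp hz
      exact mem_image.mpr ⟨i.castSucc, mem_univ _, Fin.snoc_castSucc _ _ _⟩

/-- Module CLA. -/
theorem CLA (hMAX : St_MAX) (hTYP : St_TYP) (hEVN : St_EVN) (hRGF : St_RGF) (hRGS : St_RGS) (hRGV : St_RGV)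
    (hCYC : St_CYC) : St_CLA := by
  intro V _ _ G S hS hdeg
  obtain ⟨H, ha, hb, hc, hd⟩ := hMAX V G S hS hdeg
  rcases hTYP hEVN V H S hS ha hc hd with h | ⟨u, hu, hu0, h⟩ | ⟨p, hp, q, hq, hpq, hNp, hNq, h⟩
  · obtain ⟨x, h1, h2, h3⟩ := hRGV hCYC V H S hS fun x hx => ⟨h x hx, fun y hy => (ha x y (mem_N.mp hy)).2⟩
    rcases h3 with h3 | h3
    · exact Or.inl (tp_of G H S tA hb x h1 h2 h3)
    · exact Or.inr (Or.inl (tp_of G H S tB hb x h1 h2 h3))
  · have hno : ∀ y, ¬ H.Adj u y := fun y hy => by
      have h1 : y ∈ N H u := mem_N.mpr hy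
      rw [hu0] at h1
      exact absurd h1 (notMem_empty y)
    obtain ⟨x, h1, h2, h3⟩ := hRGS hCYC V H (S.erase u) (by rw [card_erase_of_mem hu, hS]) fun x hx => by
      rw [mem_erase] at hx
      refine ⟨h x hx.2 hx.1, fun y hy => mem_erase.mpr ⟨?_, (ha x y (mem_N.mp hy)).2⟩⟩
      rintro rfl
      exact hno x (mem_N.mp hy).symm
    have hnu : u ∉ univ.image x := by
      rw [← h2]
      exact notMem_erase u S
    have hS' : S = univ.image (Fin.snoc x u : Fin 7 → V) := by
      rw [snoc_image, ← h2, insert_erase hu]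
    have key : ∀ t : Fin 7 → Fin 7 → Bool, (∀ i j : Fin 6, H.Adj (x i) (x j) → t i.castSucc j.castSucc = true) →
        ∀ i j, H.Adj ((Fin.snoc x u : Fin 7 → V) i) ((Fin.snoc x u : Fin 7 → V) j) → t i j = true := by
      intro t ht i j
      refine Fin.lastCases (fun hij => ?_) (fun i' => ?_) i
      · rw [Fin.snoc_last] at hij
        exact absurd hij (hno _)
      · refine Fin.lastCases (fun hij => ?_) (fun j' hij => ?_) j
        · rw [Fin.snoc_last] at hij
          exact absurd hij.symm (hno _)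
        · rw [Fin.snoc_castSucc, Fin.snoc_castSucc] at hij
          exact ht i' j' hij
    rcases h3 with h3 | h3
    · exact Or.inr (Or.inr (Or.inl (tp_of G H S tC hb _ (snoc_inj x u h1 hnu) hS'
        (key tC fun i j hij => tC_of i j (h3 i j hij)))))
    · exact Or.inr (Or.inr (Or.inr (Or.inl (tp_of G H S tD hb _ (snoc_inj x u h1 hnu) hS'
        (key tD fun i j hij => tD_of i j (h3 i j hij))))))
  · have hp1 : ∀ y, H.Adj p y → y = q := fun y hy => by
      have h1 : y ∈ N H p := mem_N.mpr hy
      rwa [hNp, mem_singleton] at h1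
    have hq1 : ∀ y, H.Adj q y → y = p := fun y hy => by
      have h1 : y ∈ N H q := mem_N.mpr hy
      rwa [hNq, mem_singleton] at h1
    obtain ⟨x, h1, h2, h3⟩ := hRGF hCYC V H ((S.erase p).erase q) (by
        rw [card_erase_of_mem (mem_erase.mpr ⟨hpq.symm, hq⟩), card_erase_of_mem hp, hS]) fun x hx => by
      rw [mem_erase, mem_erase] at hx
      refine ⟨h x hx.2.2 hx.2.1 hx.1, fun y hy => mem_erase.mpr ⟨?_, mem_erase.mpr ⟨?_, (ha x y (mem_N.mp hy)).2⟩⟩⟩
      · rintro rfl
        exact hx.2.1 (hq1 x (mem_N.mp hy).symm)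
      · rintro rfl
        exact hx.1 (hp1 x (mem_N.mp hy).symm)
    have hnp : p ∉ univ.image x := by
      rw [← h2, mem_erase, mem_erase]
      exact fun h => h.2.1 rfl
    have hnq : q ∉ univ.image x := by
      rw [← h2]
      exact notMem_erase q _
    let y : Fin 6 → V := Fin.snoc x p
    have hy1 : Function.Injective y := snoc_inj x p h1 hnp
    have hy2 : univ.image y = insert p (univ.image x) := snoc_image x p
    have hnq' : q ∉ univ.image y := by
      rw [hy2, mem_insert]
      exact fun h => h.elim (fun h => hpq h.symm) hnq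
    have hS' : S = univ.image (Fin.snoc y q : Fin 7 → V) := by
      rw [snoc_image, hy2, ← h2, Finset.insert_comm, insert_erase (mem_erase.mpr ⟨hpq.symm, hq⟩), insert_erase hp]
    have hxp : ∀ i, x i ≠ p := fun i e => hnp (e ▸ mem_image_of_mem _ (mem_univ _))
    have hxq : ∀ i, x i ≠ q := fun i e => hnq (e ▸ mem_image_of_mem _ (mem_univ _))
    refine Or.inr (Or.inr (Or.inr (Or.inr (tp_of G H S tE hb _ (snoc_inj y q hy1 hnq') hS' fun i j => ?_))))
    refine Fin.lastCases ?_ (fun i' => ?_) i
    · refine Fin.lastCases (fun hij => absurd hij (H.loopless.irrefl _)) (fun j' => ?_) j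
      refine Fin.lastCases (fun _ => tE_pq.2) (fun j'' hij => ?_) j'
      rw [Fin.snoc_last, Fin.snoc_castSucc] at hij
      have e1 : y j''.castSucc = x j'' := Fin.snoc_castSucc _ _ _
      rw [e1] at hij
      exact absurd (hq1 _ hij) (hxp _)
    · refine Fin.lastCases (fun hij => ?_) (fun i'' => ?_) i'
      · revert hij
        refine Fin.lastCases (fun _ => tE_pq.1) (fun j' => ?_) j
        refine Fin.lastCases (fun hij => absurd hij (H.loopless.irrefl _)) (fun j'' hij => ?_) j'
        rw [Fin.snoc_castSucc, Fin.snoc_castSucc] at hij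
        have e1 : y (Fin.last 5) = p := Fin.snoc_last _ _
        have e2 : y j''.castSucc = x j'' := Fin.snoc_castSucc _ _ _
        rw [e1, e2] at hij
        exact absurd (hp1 _ hij) (hxq _)
      · refine Fin.lastCases (fun hij => ?_) (fun j' => ?_) j
        · rw [Fin.snoc_last, Fin.snoc_castSucc] at hij
          have e2 : y i''.castSucc = x i'' := Fin.snoc_castSucc _ _ _
          rw [e2] at hij
          exact absurd (hq1 _ hij.symm) (hxp _)
        · refine Fin.lastCases (fun hij => ?_) (fun j'' hij => ?_) j'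
          · rw [Fin.snoc_castSucc, Fin.snoc_castSucc] at hij
            have e1 : y (Fin.last 5) = p := Fin.snoc_last _ _
            have e2 : y i''.castSucc = x i'' := Fin.snoc_castSucc _ _ _
            rw [e1, e2] at hij
            exact absurd (hp1 _ hij.symm) (hxq _)
          · rw [Fin.snoc_castSucc, Fin.snoc_castSucc] at hij
            have e1 : y j''.castSucc = x j'' := Fin.snoc_castSucc _ _ _
            have e2 : y i''.castSucc = x i'' := Fin.snoc_castSucc _ _ _
            rw [e1, e2] at hij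
            exact tE_of i'' j'' (h3 i'' j'' hij)

end Pool.Agent.L0h14.MD
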