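import Pool.Agent.L0h99.MN.Stm2

set_option autoImplicit false

/-!
# Module RGS of project MD (helper99)
-/

namespace Pool.Agent.L0h14.MD

open Finset Pool.Agent.L0h99.MN Pool.Agent.L0h99.MD

variable {V : Type} [Fintype V] [DecidableEq V]

theorem rest_ok (H : SimpleGraph V) (R : Finset V) (hR : ∀ x ∈ R, (N H x).card = 2 ∧ N H x ⊆ R) {k : ℕ}
    (x : Fin (k + 3) → V) (hx : ∀ i, N H (x i) = {x (i + 1), x (i - 1)}) :
    ∀ y ∈ R \ univ.image x, (N H y).card = 2 ∧ N H y ⊆ R \ univ.image x := by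
  intro y hy
  rw [mem_sdiff] at hy
  refine ⟨(hR y hy.1).1, fun z hz => mem_sdiff.mpr ⟨(hR y hy.1).2 hz, fun hzi => hy.2 ?_⟩⟩
  obtain ⟨i, -, rfl⟩ := mem_image.mp hzi
  have h1 : y ∈ N H (x i) := mem_N.mpr (mem_N.mp hz).symm
  rw [hx i, mem_insert, mem_singleton] at h1
  rcases h1 with rfl | rfl <;> exact mem_image_of_mem _ (mem_univ _)

theorem image_sub {R : Finset V} {k : ℕ} (x : Fin (k + 3) → V) (h : ∀ i, x i ∈ R) : univ.image x ⊆ R := by
  intro y hy
  obtain ⟨i, -, rfl⟩ := mem_image.mp hy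
  exact h i

theorem image_card {k : ℕ} (x : Fin (k + 3) → V) (h : Function.Injective x) : (univ.image x).card = k + 3 := by
  rw [card_image_of_injective _ h, card_univ, Fintype.card_fin]

theorem adj_cases (H : SimpleGraph V) {k : ℕ} (x : Fin (k + 3) → V) (hi : Function.Injective x)
    (hx : ∀ i, N H (x i) = {x (i + 1), x (i - 1)}) (i j : Fin (k + 3)) (h : H.Adj (x i) (x j)) :
    j = i + 1 ∨ j = i - 1 := by
  have h1 : x j ∈ N H (x i) := mem_N.mpr h
  rw [hx i, mem_insert, mem_singleton] at h1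
  exact h1.imp (fun h => hi h) (fun h => hi h)

theorem adj_mem (H : SimpleGraph V) {k : ℕ} (x : Fin (k + 3) → V)
    (hx : ∀ i, N H (x i) = {x (i + 1), x (i - 1)}) (i : Fin (k + 3)) (y : V) (h : H.Adj (x i) y) :
    y ∈ univ.image x := by
  have h1 : y ∈ N H (x i) := mem_N.mpr h
  rw [hx i, mem_insert, mem_singleton] at h1
  rcases h1 with rfl | rfl <;> exact mem_image_of_mem _ (mem_univ _)

theorem hex_tb : ∀ i j : Fin 6, (j = i + 1 ∨ j = i - 1) →
    tb [(0, 1), (1, 2), (2, 3), (3, 4), (4, 5), (5, 0)] i j = true := by decide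

theorem tri_tb : ∀ i j : Fin 6, i ≠ j → ((i.1 < 3 ∧ j.1 < 3) ∨ (3 ≤ i.1 ∧ 3 ≤ j.1)) →
    tb [(0, 1), (1, 2), (2, 0), (3, 4), (4, 5), (5, 3)] i j = true := by decide

/-- Module RGS. -/
theorem RGS : St_RGS := by
  intro hC V _ _ H R hcard hR
  have hne : R.Nonempty := card_pos.mp (by omega)
  obtain ⟨k, x, h1, h2, h3⟩ := hC V H R hne hR
  have hs := image_sub x h2
  have hc := image_card x h1
  have hd : (R \ univ.image x).card = R.card - (univ.image x).card := card_sdiff_of_subset hs
  have hle := card_le_card hs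
  by_cases hne' : (R \ univ.image x).Nonempty
  · obtain ⟨k', x', h1', h2', h3'⟩ := hC V H _ hne' (rest_ok H R hR x h3)
    have hs' := image_sub x' h2'
    have hc' := image_card x' h1'
    have hle' := card_le_card hs'
    obtain rfl : k = 0 := by omega
    obtain rfl : k' = 0 := by omega
    have hnot : ∀ j, x' j ∉ univ.image x := fun j => (mem_sdiff.mp (h2' j)).2
    have hR6 : ∀ j, x' j ∈ R := fun j => (mem_sdiff.mp (h2' j)).1
    let y : Fin 6 → V := fun i => if h : i.1 < 3 then x ⟨i.1, h⟩ else x' ⟨i.1 - 3, by omega⟩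
    have yl : ∀ (i : Fin 6) (h : i.1 < 3), y i = x ⟨i.1, h⟩ := fun i h => dif_pos h
    have yr : ∀ (i : Fin 6) (h : ¬ i.1 < 3), y i = x' ⟨i.1 - 3, by omega⟩ := fun i h => dif_neg h
    have hyR : ∀ i, y i ∈ R := by
      intro i
      by_cases h : i.1 < 3
      · rw [yl i h]
        exact h2 _
      · rw [yr i h]
        exact hR6 _
    have hy : Function.Injective y := by
      intro i j hij
      by_cases hi : i.1 < 3 <;> by_cases hj : j.1 < 3
      · rw [yl i hi, yl j hj] at hij
        have := congrArg Fin.val (h1 hij)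
        exact Fin.ext this
      · rw [yl i hi, yr j hj] at hij
        have h5 := mem_image_of_mem x (mem_univ (⟨i.1, hi⟩ : Fin (0 + 3)))
        rw [hij] at h5
        exact absurd h5 (hnot _)
      · rw [yr i hi, yl j hj] at hij
        have h5 := mem_image_of_mem x (mem_univ (⟨j.1, hj⟩ : Fin (0 + 3)))
        rw [← hij] at h5
        exact absurd h5 (hnot _)
      · rw [yr i hi, yr j hj] at hij
        have := congrArg Fin.val (h1' hij)
        dsimp only at this
        exact Fin.ext (by omega)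
    refine ⟨y, hy, ?_, Or.inr fun i j hij => ?_⟩
    · refine (eq_of_subset_of_card_le ?_ ?_).symm
      · intro z hz
        obtain ⟨i, -, rfl⟩ := mem_image.mp hz
        exact hyR i
      · rw [card_image_of_injective _ hy, card_univ, Fintype.card_fin, hcard]
    · have hne2 : i ≠ j := fun h => H.loopless.irrefl _ (h ▸ hij)
      refine tri_tb i j hne2 ?_
      by_cases hi : i.1 < 3 <;> by_cases hj : j.1 < 3
      · exact Or.inl ⟨hi, hj⟩
      · rw [yl i hi, yr j hj] at hij
        exact absurd (adj_mem H x h3 _ _ hij) (hnot _)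
      · rw [yr i hi, yl j hj] at hij
        exact absurd (adj_mem H x h3 _ _ hij.symm) (hnot _)
      · exact Or.inr ⟨by omega, by omega⟩
  · rw [not_nonempty_iff_eq_empty] at hne'
    rw [hne', card_empty] at hd
    obtain rfl : k = 3 := by omega
    refine ⟨x, h1, (eq_of_subset_of_card_le hs (by omega)).symm, Or.inl fun i j hij => ?_⟩
    exact hex_tb i j (adj_cases H x h1 h3 i j hij)

end Pool.Agent.L0h14.MD
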